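import Pool.Agent.H458.AR.Cmb

/-!
# Project AR: few columns separate the rows
-/

set_option autoImplicit false

open scoped Classical

namespace Pool.Agent.H337.AR458

open Pool.Agent.H458.AR

theorem sep : Pool.Agent.H458.AR.S_SEP := by
  intro V _ m y K A hK hA
  rcases K.eq_empty_or_nonempty with h0 | ⟨i₀, hi₀⟩
  · refine ⟨∅, by simp, ?_⟩
    intro i hi
    rw [h0] at hi
    exact absurd hi (Finset.notMem_empty i)
  have hV : 0 < Fintype.card V := Fintype.card_pos_iff.2 ⟨i₀⟩
  have hm : 1 ≤ m := by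
    rcases Nat.eq_zero_or_pos m with h | h
    · exfalso
      rw [h] at hK
      have h1 : 1 ≤ K.card := Finset.card_pos.2 ⟨i₀, hi₀⟩
      have h2 : 1 ≤ K.card ^ 2 := Nat.one_le_pow _ _ h1
      have h3 : (2 * 0 - 1) ^ y = (2 * 0) ^ y := rfl
      rw [h3] at hK
      have h4 := Nat.mul_le_mul_right ((2 * 0) ^ y) h2
      rw [one_mul] at h4
      exact absurd hK (not_lt.2 h4)
    · exact h
  by_contra hcon
  push Not at hcon
  -- every function is bad for some pair
  let ag : V × V → Finset V := fun p => Finset.univ.filter fun l => (A p.1 l ↔ A p.2 l)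
  have hcov : (Finset.univ : Finset (Fin y → V)) ⊆
      ((K ×ˢ K).filter fun p => p.1 ≠ p.2).biUnion fun p => Fintype.piFinset fun _ => ag p := by
    intro c _
    obtain ⟨i, hi, j, hj, hij, h⟩ := hcon (Finset.univ.image c)
      (Finset.card_image_le.trans (by simp))
    rw [Finset.mem_biUnion]
    refine ⟨(i, j), ?_, ?_⟩
    · rw [Finset.mem_filter, Finset.mem_product]
      exact ⟨⟨hi, hj⟩, hij⟩
    · rw [Fintype.mem_piFinset]
      intro k
      have h1 := h (c k) (Finset.mem_image_of_mem c (Finset.mem_univ k))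
      simp only [ag, Finset.mem_filter, Finset.mem_univ, true_and]
      exact h1
  have h1 : Fintype.card V ^ y ≤ ∑ p ∈ (K ×ˢ K).filter (fun p => p.1 ≠ p.2), (ag p).card ^ y := by
    have h2 := (Finset.card_le_card hcov).trans Finset.card_biUnion_le
    rw [Finset.card_univ, Fintype.card_fun, Fintype.card_fin] at h2
    refine h2.trans (le_of_eq ?_)
    refine Finset.sum_congr rfl fun p _ => ?_
    rw [Fintype.card_piFinset]
    simp
  have h3 : ∀ p ∈ (K ×ˢ K).filter (fun p => p.1 ≠ p.2),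
      (2 * m) ^ y * (ag p).card ^ y ≤ (2 * m - 1) ^ y * Fintype.card V ^ y := by
    intro p hp
    rw [Finset.mem_filter, Finset.mem_product] at hp
    have h4 := hA p.1 hp.1.1 p.2 hp.1.2 hp.2
    have h5 : (ag p).card + (Finset.univ.filter fun l => ¬ (A p.1 l ↔ A p.2 l)).card =
        Fintype.card V := by
      rw [← Finset.card_univ]
      exact Finset.card_filter_add_card_filter_not _
    rw [← mul_pow, ← mul_pow]
    refine Nat.pow_le_pow_left ?_ y
    obtain ⟨M, hM⟩ : ∃ M, 2 * m = M + 1 := ⟨2 * m - 1, by omega⟩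
    rw [hM] at h4 ⊢
    rw [Nat.add_sub_cancel]
    nlinarith
  have h6 : (2 * m) ^ y * Fintype.card V ^ y ≤
      K.card ^ 2 * ((2 * m - 1) ^ y * Fintype.card V ^ y) := by
    calc (2 * m) ^ y * Fintype.card V ^ y
        ≤ (2 * m) ^ y * ∑ p ∈ (K ×ˢ K).filter (fun p => p.1 ≠ p.2), (ag p).card ^ y :=
          Nat.mul_le_mul_left _ h1
      _ = ∑ p ∈ (K ×ˢ K).filter (fun p => p.1 ≠ p.2), (2 * m) ^ y * (ag p).card ^ y :=
          Finset.mul_sum _ _ _
      _ ≤ ∑ p ∈ (K ×ˢ K).filter (fun p => p.1 ≠ p.2), (2 * m - 1) ^ y * Fintype.card V ^ y :=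
          Finset.sum_le_sum h3
      _ = ((K ×ˢ K).filter (fun p => p.1 ≠ p.2)).card *
            ((2 * m - 1) ^ y * Fintype.card V ^ y) := by
          rw [Finset.sum_const, smul_eq_mul]
      _ ≤ K.card ^ 2 * ((2 * m - 1) ^ y * Fintype.card V ^ y) := by
          refine Nat.mul_le_mul_right _ ?_
          refine (Finset.card_filter_le _ _).trans (le_of_eq ?_)
          rw [Finset.card_product, sq]
  have h7 : 0 < Fintype.card V ^ y := Nat.pow_pos hV
  have h8 : K.card ^ 2 * ((2 * m - 1) ^ y * Fintype.card V ^ y) <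
      (2 * m) ^ y * Fintype.card V ^ y := by
    rw [← mul_assoc]
    exact Nat.mul_lt_mul_of_pos_right hK h7
  omega

end Pool.Agent.H337.AR458
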